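import Pool.Agent.MWGQ.StmtsC

/-!
# MWGQ, row FAA: `x^2zsz ≈ x^2zx^nsz` implies `FB` (twin of Helper88_MWGN/FAA)
-/

namespace Pool.Agent.MWGQ.H22

open Pool.Agent.Helper14_MV Pool.Agent.Helper2_MV
open Pool.Agent.MWGN (Tau)

theorem fctx {β : FIC} (p q : List ℕ) {l l' : List ℕ} (h : RR β l l') :
    RR β (p ++ (l ++ q)) (p ++ (l' ++ q)) :=
  (RR.refl p).append (h.append (RR.refl q))

theorem fbs_succ (n : ℕ) (L C : ℕ → List ℕ) (X : List ℕ) (s : ℕ → Bool) (j : ℕ) :
    bs n L C X s (j + 1) = bs n L C X s j ++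
      (L j ++ (pw (n + 1) (C j) ++ (if s j then pw (2 * n) X else []))) := by
  unfold bs
  rw [List.range_succ, List.flatMap_append]
  simp

theorem fpw_add (a b : ℕ) (X : List ℕ) : pw (a + b) X = pw a X ++ pw b X := by
  unfold pw
  rw [← List.replicate_append_replicate, List.flatten_append]

theorem frep_sub (k d : ℕ) (g : ℕ → List ℕ) :
    (List.replicate k d).flatMap g = pw k (g d) := by
  induction k with
  | zero => rfl
  | succ k ih =>
    rw [List.replicate_succ, List.flatMap_cons, ih]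
    unfold pw
    rw [List.replicate_succ, List.flatten_cons]

/-- one insertion -/
theorem fstepA (h1 : PwxStmt) {n : ℕ} {β : FIC} (H : Gn n β) (hA : A0 n β)
    (P X L C Y R : List ℕ) :
    RR β (P ++ (pw (2 * n) X ++ (L ++ (pw (n + 1) C ++ (Y ++ (L ++ R))))))
      (P ++ (pw (2 * n) X ++ (L ++ (pw (n + 1) C ++ (pw (2 * n) X ++ (Y ++ (L ++ R))))))) := by
  obtain ⟨_, p2, p3⟩ := h1 n β H
  have hn := H.pos
  have a := hA.sub (fun c => if c = 0 then X else if c = 1 then L else pw (n + 1) C ++ Y)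
  have a1 : RR β (X ++ (X ++ (L ++ (pw (n + 1) C ++ (Y ++ L)))))
      (X ++ (X ++ (L ++ (pw n X ++ (pw (n + 1) C ++ (Y ++ L)))))) := by
    rw [List.flatMap_append, List.flatMap_append, frep_sub] at a
    simpa using a
  have eE : pw (2 * n) X = pw (2 * n - 2) X ++ (X ++ X) := by
    have e : 2 * n = 2 * n - 2 + (1 + 1) := by omega
    conv_lhs => rw [e, fpw_add, fpw_add 1 1]
    simp [pw]
  have a2 := fctx (P ++ pw (2 * n - 2) X) R a1
  have s1 : RR β (P ++ (pw (2 * n) X ++ (L ++ (pw (n + 1) C ++ (Y ++ (L ++ R))))))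
      (P ++ (pw (2 * n) X ++ (L ++ (pw n X ++ (pw (n + 1) C ++ (Y ++ (L ++ R))))))) := by
    rw [eE]
    simpa only [List.append_assoc] using a2
  have b1 := p2 X L n (2 * n) hn (by omega) (by
    have : n ≡ n + n [MOD n] := by simp [Nat.ModEq]
    rw [two_mul]
    exact this)
  have b2 := fctx (P ++ (pw (2 * n - 2) X ++ X)) (pw (n + 1) C ++ (Y ++ (L ++ R))) b1
  have s2 : RR β (P ++ (pw (2 * n) X ++ (L ++ (pw n X ++ (pw (n + 1) C ++ (Y ++ (L ++ R)))))))
      (P ++ (pw (2 * n) X ++ (L ++ (pw (2 * n) X ++ (pw (n + 1) C ++ (Y ++ (L ++ R))))))) := by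
    have e3 : ∀ M : List ℕ, P ++ (pw (2 * n) X ++ M) =
        P ++ (pw (2 * n - 2) X ++ X) ++ (X ++ M) := by
      intro M
      conv_lhs => rw [eE]
      simp only [List.append_assoc]
    rw [e3, e3]
    simpa only [List.append_assoc] using b2
  have c1 := p3 X C (2 * n) (n + 1) (by omega) (by omega)
  have c2 := fctx (P ++ (pw (2 * n) X ++ L)) (Y ++ (L ++ R)) c1
  have s3 : RR β (P ++ (pw (2 * n) X ++ (L ++ (pw (2 * n) X ++ (pw (n + 1) C ++
      (Y ++ (L ++ R)))))))
      (P ++ (pw (2 * n) X ++ (L ++ (pw (n + 1) C ++ (pw (2 * n) X ++ (Y ++ (L ++ R))))))) := by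
    simpa only [List.append_assoc] using c2
  exact β.trans s1 (β.trans s2 s3)

theorem ffront (n : ℕ) (L C : ℕ → List ℕ) (X : List ℕ) (j : ℕ) :
    ∃ P, pw (2 * n) X ++ bs n L C X (fun _ => true) j = P ++ pw (2 * n) X := by
  cases j with
  | zero => exact ⟨[], by simp [bs]⟩
  | succ j =>
    refine ⟨pw (2 * n) X ++ (bs n L C X (fun _ => true) j ++ (L j ++ pw (n + 1) (C j))), ?_⟩
    rw [fbs_succ]
    simp

theorem ffill (h1 : PwxStmt) {n : ℕ} {β : FIC} (H : Gn n β) (hA : A0 n β) (X : List ℕ)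
    (L C : ℕ → List ℕ) : ∀ (j : ℕ) (R : List ℕ), (∀ i < j, ∃ Y R2, R = Y ++ (L i ++ R2)) →
    RR β (pw (2 * n) X ++ (bs n L C X (fun _ => false) j ++ R))
      (pw (2 * n) X ++ (bs n L C X (fun _ => true) j ++ R)) := by
  intro j
  induction j with
  | zero => intro R _; exact RR.refl _
  | succ j ih =>
    intro R hR
    have h3 := ih (L j ++ (pw (n + 1) (C j) ++ R)) (by
      intro i hi
      obtain ⟨Y, R2, rfl⟩ := hR i (by omega)
      exact ⟨L j ++ (pw (n + 1) (C j) ++ Y), R2, by simp⟩)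
    obtain ⟨P, hP⟩ := ffront n L C X j
    obtain ⟨Y, R2, rfl⟩ := hR j (by omega)
    have h2 := fstepA h1 H hA P X (L j) (C j) Y R2
    have e1 : pw (2 * n) X ++ (bs n L C X (fun _ => false) (j + 1) ++ (Y ++ (L j ++ R2))) =
        pw (2 * n) X ++ (bs n L C X (fun _ => false) j ++
          (L j ++ (pw (n + 1) (C j) ++ (Y ++ (L j ++ R2))))) := by
      rw [fbs_succ]
      simp
    have e2 : pw (2 * n) X ++ (bs n L C X (fun _ => true) j ++
        (L j ++ (pw (n + 1) (C j) ++ (Y ++ (L j ++ R2))))) =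
        P ++ (pw (2 * n) X ++ (L j ++ (pw (n + 1) (C j) ++ (Y ++ (L j ++ R2))))) := by
      rw [← List.append_assoc, hP, List.append_assoc]
    have e3 : pw (2 * n) X ++ (bs n L C X (fun _ => true) (j + 1) ++ (Y ++ (L j ++ R2))) =
        P ++ (pw (2 * n) X ++ (L j ++ (pw (n + 1) (C j) ++ (pw (2 * n) X ++
          (Y ++ (L j ++ R2)))))) := by
      rw [fbs_succ, List.append_assoc, ← List.append_assoc (pw (2 * n) X), hP, List.append_assoc]
      simp only [if_true, List.append_assoc]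
    rw [e1, e3]
    rw [e2] at h3
    exact β.trans h3 h2

/-- **FAA** -/
theorem faa (h1 : PwxStmt) : FaaStmt := by
  intro n β H hA r τ hτ X B S L C
  unfold ws
  apply ffill h1 H hA X L C r
  intro i hi
  have him : i ∈ τ := (hτ.2 i).2 (by omega)
  obtain ⟨a, b, rfl⟩ := List.append_of_mem him
  refine ⟨L r ++ (pw (2 * n) X ++ (B ++ (a.flatMap (fun i => S i ++ L i) ++ S i))),
    b.flatMap (fun i => S i ++ L i), ?_⟩
  simp

end Pool.Agent.MWGQ.H22
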