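import Pool.Agent.MWGQ.Stmts

/-!
# MWGQ, row PWX: powers of words
-/

namespace Pool.Agent.MWGQ.H22

open Pool.Agent.Helper14_MV Pool.Agent.Helper2_MV

theorem pw_zero (X : List ℕ) : pw 0 X = [] := rfl

theorem pw_one (X : List ℕ) : pw 1 X = X := by simp [pw]

theorem pw_add (a b : ℕ) (X : List ℕ) : pw (a + b) X = pw a X ++ pw b X := by
  unfold pw
  rw [← List.replicate_append_replicate, List.flatten_append]

theorem pw_succ (a : ℕ) (X : List ℕ) : pw (a + 1) X = X ++ pw a X := by
  rw [add_comm, pw_add, pw_one]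

theorem pw_pw (a b : ℕ) (X : List ℕ) : pw b (pw a X) = pw (a * b) X := by
  induction b with
  | zero => rfl
  | succ b ih => rw [pw_succ, ih, Nat.mul_succ, add_comm (a * b) a, pw_add]

theorem rep_sub (k d : ℕ) (g : ℕ → List ℕ) : (List.replicate k d).flatMap g = pw k (g d) := by
  induction k with
  | zero => rfl
  | succ k ih => rw [List.replicate_succ, List.flatMap_cons, ih, pw_succ]

theorem z_add {n : ℕ} {β : FIC} (h : RR β [0, 0] (Z (n + 2))) (i k : ℕ) (hi : 2 ≤ i) :
    RR β (Z i) (Z (i + n * k)) := by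
  induction k with
  | zero => exact RR.refl _
  | succ k ih =>
    have h1 := h.append (RR.refl (Z (i + n * k - 2)))
    have e1 : [0, 0] ++ Z (i + n * k - 2) = Z (i + n * k) := by
      have : [0, 0] = Z 2 := rfl
      rw [this, List.replicate_append_replicate]
      congr 1
      omega
    have e2 : Z (n + 2) ++ Z (i + n * k - 2) = Z (i + n * (k + 1)) := by
      rw [List.replicate_append_replicate]
      congr 1
      rw [Nat.mul_succ]
      omega
    rw [e1, e2] at h1
    exact β.trans ih h1

theorem mod_form {n a b : ℕ} (h : a ≡ b [MOD n]) (hab : a ≤ b) : ∃ k, b = a + n * k := by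
  obtain ⟨k, hk⟩ := (Nat.modEq_iff_dvd' hab).1 h
  exact ⟨k, by omega⟩

/-- **PWX** -/
theorem pwx : PwxStmt := by
  intro n β hG
  have p1 : ∀ (X : List ℕ) (a b : ℕ), 2 ≤ a → 2 ≤ b → a ≡ b [MOD n] →
      RR β (pw a X) (pw b X) := by
    have key : ∀ (X : List ℕ) (a b : ℕ), 2 ≤ a → a ≤ b → a ≡ b [MOD n] →
        RR β (pw a X) (pw b X) := by
      intro X a b ha hab h
      obtain ⟨k, rfl⟩ := mod_form h hab
      have h1 := (z_add hG.per a k ha).sub (fun _ => X)
      rw [rep_sub, rep_sub] at h1
      exact h1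
    intro X a b ha hb h
    rcases le_total a b with hab | hab
    · exact key X a b ha hab h
    · exact (key X b a hb hab h.symm).symm
  have p2 : ∀ (X u : List ℕ) (a b : ℕ), 1 ≤ a → 1 ≤ b → a ≡ b [MOD n] →
      RR β (X ++ (u ++ pw a X)) (X ++ (u ++ pw b X)) := by
    have key : ∀ (X u : List ℕ) (a b : ℕ), 1 ≤ a → a ≤ b → a ≡ b [MOD n] →
        RR β (X ++ (u ++ pw a X)) (X ++ (u ++ pw b X)) := by
      intro X u a b ha hab h
      have h1 := hG.gm.sub (fun d => if d = 0 then X else if d = 1 then u else [])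
      have e1 : [0, 1, 0].flatMap (fun d => if d = 0 then X else if d = 1 then u else []) =
          X ++ (u ++ X) := by simp
      have e2 : (0 :: 1 :: Z (n + 1)).flatMap
          (fun d => if d = 0 then X else if d = 1 then u else []) =
          X ++ (u ++ pw (n + 1) X) := by
        rw [List.flatMap_cons, List.flatMap_cons, rep_sub]
        simp
      rw [e1, e2] at h1
      have h2 : ∀ i, 1 ≤ i → RR β (X ++ (u ++ pw i X)) (X ++ (u ++ pw (i + n) X)) := by
        intro i hi
        have h3 := h1.append (RR.refl (pw (i - 1) X))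
        have e3 : X ++ (u ++ X) ++ pw (i - 1) X = X ++ (u ++ pw i X) := by
          have : i = i - 1 + 1 := by omega
          conv_rhs => rw [this, pw_succ]
          simp only [List.append_assoc]
        have e4 : X ++ (u ++ pw (n + 1) X) ++ pw (i - 1) X = X ++ (u ++ pw (i + n) X) := by
          have : i + n = n + 1 + (i - 1) := by omega
          rw [this, pw_add (n + 1) (i - 1)]
          simp only [List.append_assoc]
        rw [e3, e4] at h3
        exact h3
      obtain ⟨k, rfl⟩ := mod_form h hab
      clear h hab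
      induction k with
      | zero => exact RR.refl _
      | succ k ih =>
        have h3 := h2 (a + n * k) (by omega)
        rw [Nat.mul_succ, ← Nat.add_assoc]
        exact β.trans ih h3
    intro X u a b ha hb h
    rcases le_total a b with hab | hab
    · exact key X u a b ha hab h
    · exact (key X u b a hb hab h.symm).symm
  refine ⟨p1, p2, ?_⟩
  intro X C a b ha hb
  have m : ∀ a : ℕ, a ≡ a * (n + 1) [MOD n] := by
    intro a
    rw [Nat.mul_succ]
    have : a * n + a ≡ 0 + a [MOD n] :=
      (Nat.modEq_zero_iff_dvd.2 (Dvd.intro_left _ rfl)).add_right a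
    rw [Nat.zero_add] at this
    exact this.symm
  have l : ∀ a : ℕ, 2 ≤ a → 2 ≤ a * (n + 1) := by
    intro a ha
    exact le_trans ha (Nat.le_mul_of_pos_right _ (Nat.succ_pos n))
  have h1 := p1 X a (a * (n + 1)) ha (l a ha) (m a)
  have h2 := p1 C b (b * (n + 1)) hb (l b hb) (m b)
  rw [← pw_pw] at h1 h2
  have h3 := hG.c.sub (fun d => if d = 0 then pw a X else pw b C)
  rw [List.flatMap_append, List.flatMap_append, rep_sub, rep_sub] at h3
  have h4 : RR β (pw (n + 1) (pw a X) ++ pw (n + 1) (pw b C))
      (pw (n + 1) (pw b C) ++ pw (n + 1) (pw a X)) := by simpa using h3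
  exact β.trans (h1.append h2) (β.trans h4 (h2.symm.append h1.symm))

end Pool.Agent.MWGQ.H22
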